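import Mathlib

/-!
# QA / HookGeo, module NUM: numerical lemmas

`num_cnt`: counting bound for the ancestors; `num_top`, `num_far`: the sums over the top lanes;
`num_tail`: the tail sum used for the choice of the base size.
-/

open Filter Topology

namespace Pool.Agent.H83.HG

/-- the cost exponent, `D = d - 1` -/
lemma gam_pos {D : ℕ} (hD : 1 ≤ D) : 0 ≤ 1 - 1 / (2 * (D : ℝ)) ∧ 1 - 1 / (2 * (D : ℝ)) ≤ 1 := by
  have h1 : (1 : ℝ) ≤ D := by exact_mod_cast hD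
  have h2 : 1 / (2 * (D : ℝ)) ≤ 1 := by
    rw [div_le_one (by positivity)]; linarith
  have h3 : 0 ≤ 1 / (2 * (D : ℝ)) := by positivity
  constructor <;> linarith

/-- geometric mean bound: `x ≤ a`, `x ≤ b` gives `x ≤ a^g b^(1-g)` -/
lemma le_geom {x a b g : ℝ} (hx : 0 ≤ x) (ha : x ≤ a) (hb : x ≤ b) (hg0 : 0 ≤ g) (hg1 : g ≤ 1) :
    x ≤ a ^ g * b ^ (1 - g) := by
  rcases eq_or_lt_of_le hx with h | h
  · rw [← h]
    exact mul_nonneg (Real.rpow_nonneg (hx.trans ha) _) (Real.rpow_nonneg (hx.trans hb) _)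
  · have h1 : x = x ^ g * x ^ (1 - g) := by
      rw [← Real.rpow_add h]; simp
    calc x = x ^ g * x ^ (1 - g) := h1
      _ ≤ a ^ g * b ^ (1 - g) := by
        apply mul_le_mul
        · exact Real.rpow_le_rpow hx ha hg0
        · exact Real.rpow_le_rpow hx hb (by linarith)
        · exact Real.rpow_nonneg hx _
        · exact Real.rpow_nonneg (hx.trans ha) _

/-- NUM1. Counting bound: level `l` (`l ≤ D T`) has weight `2^(k₀ + l/D)` and at most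
`min (2 k) (F 2^(D T - l))` relevant nodes. -/
theorem num_cnt (D F : ℕ) (hD : 1 ≤ D) : ∃ C : ℝ, 0 < C ∧ ∀ (k₀ T k : ℕ) (N : ℕ → ℕ), 1 ≤ k →
    (∀ l ≤ D * T, N l ≤ 2 * k) → (∀ l ≤ D * T, N l ≤ F * 2 ^ (D * T - l)) →
    ∑ l ∈ Finset.range (D * T + 1), (2 : ℝ) ^ (k₀ + l / D) * N l ≤
      C * 2 ^ (k₀ + T) * (k : ℝ) ^ (1 - 1 / (2 * (D : ℝ))) := by
  have hD' : (0 : ℝ) < D := by exact_mod_cast hD
  obtain ⟨g, hg⟩ : ∃ g : ℝ, g = 1 - 1 / (2 * (D : ℝ)) := ⟨_, rfl⟩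
  obtain ⟨hg0, hg1⟩ := gam_pos hD
  rw [← hg] at hg0 hg1 ⊢
  have hg2 : 1 - g = 1 / (2 * (D : ℝ)) := by rw [hg]; ring
  obtain ⟨ρ, hρ⟩ : ∃ ρ : ℝ, ρ = (2 : ℝ) ^ (1 / (2 * (D : ℝ))) := ⟨_, rfl⟩
  have hρ1 : 1 < ρ := by
    rw [hρ]
    exact Real.one_lt_rpow (by norm_num) (by positivity)
  have hρn : ∀ n : ℕ, ((2 : ℝ) ^ n) ^ (1 / (2 * (D : ℝ))) = ρ ^ n := by
    intro n
    rw [hρ, ← Real.rpow_natCast, ← Real.rpow_natCast, ← Real.rpow_mul (by norm_num),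
      ← Real.rpow_mul (by norm_num), mul_comm]
  have hρ2 : ρ ^ (2 * D) = 2 := by
    rw [← hρn, ← Real.rpow_natCast, ← Real.rpow_mul (by norm_num)]
    push_cast
    rw [mul_one_div_cancel (by positivity), Real.rpow_one]
  have hρ0 : 0 < ρ := by linarith
  refine ⟨2 ^ g * (F : ℝ) ^ (1 - g) * (ρ / (ρ - 1)) + 1, ?_, ?_⟩
  · have h1 : 0 ≤ (F : ℝ) ^ (1 - g) := Real.rpow_nonneg (by positivity) _
    have h2 : 0 ≤ ρ / (ρ - 1) := div_nonneg hρ0.le (by linarith)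
    have h3 : (0 : ℝ) ≤ 2 ^ g := by positivity
    have h4 : 0 ≤ 2 ^ g * (F : ℝ) ^ (1 - g) * (ρ / (ρ - 1)) := by positivity
    linarith
  intro k₀ T k N hk h1 h2
  have hkg : 0 ≤ (k : ℝ) ^ g := Real.rpow_nonneg (by positivity) _
  have hterm : ∀ l ∈ Finset.range (D * T + 1), (2 : ℝ) ^ (k₀ + l / D) * N l ≤
      2 ^ k₀ * (2 ^ g * (k : ℝ) ^ g * (F : ℝ) ^ (1 - g)) * ρ ^ (D * T) * ρ ^ l := by
    intro l hl
    have hl' : l ≤ D * T := by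
      have := Finset.mem_range.mp hl
      omega
    have e1 : (N l : ℝ) ≤ (2 * k : ℝ) ^ g * ((F : ℝ) * 2 ^ (D * T - l)) ^ (1 - g) := by
      refine le_geom (by positivity) ?_ ?_ hg0 hg1
      · exact_mod_cast h1 l hl'
      · exact_mod_cast h2 l hl'
    have e2 : (2 * k : ℝ) ^ g = 2 ^ g * (k : ℝ) ^ g := Real.mul_rpow (by norm_num) (by positivity)
    have e3 : ((F : ℝ) * 2 ^ (D * T - l)) ^ (1 - g) = (F : ℝ) ^ (1 - g) * ρ ^ (D * T - l) := by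
      rw [Real.mul_rpow (by positivity) (by positivity)]
      congr 1
      rw [hg2, hρn]
    have e4 : (2 : ℝ) ^ (l / D) ≤ ρ ^ (2 * l) := by
      rw [← hρ2, ← pow_mul]
      refine pow_le_pow_right₀ hρ1.le ?_
      have := Nat.mul_div_le l D
      nlinarith
    have e5 : (2 : ℝ) ^ (k₀ + l / D) ≤ 2 ^ k₀ * ρ ^ (2 * l) := by
      rw [pow_add]
      exact mul_le_mul_of_nonneg_left e4 (by positivity)
    have e6 : ρ ^ (2 * l) * ρ ^ (D * T - l) = ρ ^ (D * T) * ρ ^ l := by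
      rw [← pow_add, ← pow_add]
      congr 1
      omega
    have hF : 0 ≤ (F : ℝ) ^ (1 - g) := Real.rpow_nonneg (by positivity) _
    calc (2 : ℝ) ^ (k₀ + l / D) * N l
        ≤ (2 ^ k₀ * ρ ^ (2 * l)) * ((2 ^ g * (k : ℝ) ^ g) * ((F : ℝ) ^ (1 - g) * ρ ^ (D * T - l))) := by
          rw [← e2, ← e3]
          exact mul_le_mul e5 e1 (by positivity) (by positivity)
      _ = 2 ^ k₀ * (2 ^ g * (k : ℝ) ^ g * (F : ℝ) ^ (1 - g)) * (ρ ^ (2 * l) * ρ ^ (D * T - l)) := by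
          ring
      _ = 2 ^ k₀ * (2 ^ g * (k : ℝ) ^ g * (F : ℝ) ^ (1 - g)) * ρ ^ (D * T) * ρ ^ l := by
          rw [e6]; ring
  have hgeo : ∑ l ∈ Finset.range (D * T + 1), ρ ^ l ≤ ρ ^ (D * T) * (ρ / (ρ - 1)) := by
    rw [geom_sum_eq hρ1.ne', div_le_iff₀ (by linarith)]
    have e1 : ρ ^ (D * T) * (ρ / (ρ - 1)) * (ρ - 1) = ρ ^ (D * T + 1) := by
      have : ρ - 1 ≠ 0 := by linarith
      field_simp
      ring
    rw [e1]
    linarith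
  have hF : 0 ≤ (F : ℝ) ^ (1 - g) := Real.rpow_nonneg (by positivity) _
  have hT : ρ ^ (D * T) * ρ ^ (D * T) = 2 ^ T := by
    rw [← pow_add, ← hρ2, ← pow_mul]
    congr 1
    ring
  calc ∑ l ∈ Finset.range (D * T + 1), (2 : ℝ) ^ (k₀ + l / D) * N l
      ≤ ∑ l ∈ Finset.range (D * T + 1),
          2 ^ k₀ * (2 ^ g * (k : ℝ) ^ g * (F : ℝ) ^ (1 - g)) * ρ ^ (D * T) * ρ ^ l :=
        Finset.sum_le_sum hterm
    _ = 2 ^ k₀ * (2 ^ g * (k : ℝ) ^ g * (F : ℝ) ^ (1 - g)) * ρ ^ (D * T) *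
          ∑ l ∈ Finset.range (D * T + 1), ρ ^ l := by rw [Finset.mul_sum]
    _ ≤ 2 ^ k₀ * (2 ^ g * (k : ℝ) ^ g * (F : ℝ) ^ (1 - g)) * ρ ^ (D * T) *
          (ρ ^ (D * T) * (ρ / (ρ - 1))) := mul_le_mul_of_nonneg_left hgeo (by positivity)
    _ = (2 ^ g * (F : ℝ) ^ (1 - g) * (ρ / (ρ - 1))) * 2 ^ (k₀ + T) * (k : ℝ) ^ g := by
        rw [pow_add, ← hT]; ring
    _ ≤ (2 ^ g * (F : ℝ) ^ (1 - g) * (ρ / (ρ - 1)) + 1) * 2 ^ (k₀ + T) * (k : ℝ) ^ g := by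
        refine mul_le_mul_of_nonneg_right (mul_le_mul_of_nonneg_right ?_ (by positivity)) hkg
        linarith

/-- NUM2. the sum over the last segment of a lane: radius `max r₂ (t/16)` at distance `t` -/
theorem num_top (C c ε : ℝ) (hC : 0 ≤ C) (hc : 0 < c) (hε : 0 < ε) (r₀ : ℕ) : ∃ r₂ : ℕ, r₀ ≤ r₂ ∧
    ∀ L : ℕ, ∑ t ∈ Finset.range L, C * Real.exp (-c * ((max r₂ (t / 16) : ℕ) : ℝ)) ≤ ε := by
  obtain ⟨x, hx⟩ : ∃ x, x = Real.exp (-(c / 32)) := ⟨_, rfl⟩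
  have hx0 : 0 < x := by rw [hx]; exact Real.exp_pos _
  have hx1 : x < 1 := by
    rw [hx, Real.exp_lt_one_iff]
    linarith
  obtain ⟨A, hA⟩ : ∃ A, A = C * Real.exp (c / 2) * (1 - x)⁻¹ := ⟨_, rfl⟩
  have hA0 : 0 ≤ A := by
    rw [hA]
    have : 0 ≤ (1 - x)⁻¹ := inv_nonneg.mpr (by linarith)
    positivity
  have hlim : Tendsto (fun r : ℕ => A * Real.exp (-(c / 2) * r)) atTop (𝓝 0) := by
    have h1 : Tendsto (fun r : ℕ => -(c / 2) * (r : ℝ)) atTop atBot :=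
      Tendsto.const_mul_atTop_of_neg (by linarith) tendsto_natCast_atTop_atTop
    have h2 := (Real.tendsto_exp_atBot.comp h1).const_mul A
    simpa using h2
  obtain ⟨r₁, hr₁⟩ := (hlim.eventually (gt_mem_nhds hε)).exists_forall_of_atTop
  refine ⟨max r₀ r₁, le_max_left _ _, fun L => ?_⟩
  obtain ⟨r₂, hr₂⟩ : ∃ r₂, r₂ = max r₀ r₁ := ⟨_, rfl⟩
  rw [← hr₂]
  have hterm : ∀ t ∈ Finset.range L, C * Real.exp (-c * ((max r₂ (t / 16) : ℕ) : ℝ)) ≤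
      C * Real.exp (c / 2) * Real.exp (-(c / 2) * r₂) * x ^ t := by
    intro t _
    have e1 : ((t : ℝ) / 16 - 1) ≤ ((t / 16 : ℕ) : ℝ) := by
      have h1 : t < 16 * (t / 16 + 1) := by omega
      have h2 : (t : ℝ) < 16 * (((t / 16 : ℕ) : ℝ) + 1) := by exact_mod_cast h1
      linarith
    have e2 : ((r₂ : ℝ) + ((t / 16 : ℕ) : ℝ)) / 2 ≤ ((max r₂ (t / 16) : ℕ) : ℝ) := by
      push_cast
      have h1 := le_max_left (r₂ : ℝ) ((t / 16 : ℕ) : ℝ)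
      have h2 := le_max_right (r₂ : ℝ) ((t / 16 : ℕ) : ℝ)
      linarith
    have e3 : x ^ t = Real.exp (-(c / 32) * t) := by
      rw [hx, ← Real.exp_nat_mul]
      congr 1
      ring
    have e4 : C * Real.exp (c / 2) * Real.exp (-(c / 2) * r₂) * x ^ t =
        C * Real.exp (c / 2 + -(c / 2) * r₂ + -(c / 32) * t) := by
      rw [e3, Real.exp_add, Real.exp_add]
      ring
    rw [e4]
    refine mul_le_mul_of_nonneg_left (Real.exp_le_exp.mpr ?_) hC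
    have e5 : c * (((r₂ : ℝ) + ((t / 16 : ℕ) : ℝ)) / 2) ≤ c * ((max r₂ (t / 16) : ℕ) : ℝ) :=
      mul_le_mul_of_nonneg_left e2 hc.le
    have e6 : c / 2 * ((t : ℝ) / 16 - 1) ≤ c / 2 * ((t / 16 : ℕ) : ℝ) :=
      mul_le_mul_of_nonneg_left e1 (by linarith)
    nlinarith
  have hr : A * Real.exp (-(c / 2) * r₂) < ε := hr₁ r₂ (by rw [hr₂]; exact le_max_right _ _)
  calc ∑ t ∈ Finset.range L, C * Real.exp (-c * ((max r₂ (t / 16) : ℕ) : ℝ))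
      ≤ ∑ t ∈ Finset.range L, C * Real.exp (c / 2) * Real.exp (-(c / 2) * r₂) * x ^ t :=
        Finset.sum_le_sum hterm
    _ = C * Real.exp (c / 2) * Real.exp (-(c / 2) * r₂) * ∑ t ∈ Finset.range L, x ^ t := by
        rw [Finset.mul_sum]
    _ ≤ C * Real.exp (c / 2) * Real.exp (-(c / 2) * r₂) * (1 - x)⁻¹ := by
        refine mul_le_mul_of_nonneg_left ?_ (by positivity)
        have h1 := (summable_geometric_of_lt_one hx0.le hx1).sum_le_tsum (Finset.range L)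
          (fun _ _ => by positivity)
        rwa [tsum_geometric_of_lt_one hx0.le hx1] at h1
    _ = A * Real.exp (-(c / 2) * r₂) := by rw [hA]; ring
    _ ≤ ε := hr.le

/-- NUM3. the same with the radius capped at `ρ` -/
theorem num_seg (C c ε : ℝ) (hC : 0 ≤ C) (hc : 0 < c) (hε : 0 < ε) (r₀ : ℕ) : ∃ r₂ : ℕ, r₀ ≤ r₂ ∧
    ∀ L ρ : ℕ, ∑ t ∈ Finset.range L, C * Real.exp (-c * ((max r₂ (min (t / 16) ρ) : ℕ) : ℝ)) ≤
      ε + L * (C * Real.exp (-c * ρ)) := by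
  obtain ⟨r₂, h1, h2⟩ := num_top C c ε hC hc hε r₀
  refine ⟨r₂, h1, fun L ρ => ?_⟩
  have hterm : ∀ t ∈ Finset.range L, C * Real.exp (-c * ((max r₂ (min (t / 16) ρ) : ℕ) : ℝ)) ≤
      C * Real.exp (-c * ((max r₂ (t / 16) : ℕ) : ℝ)) + C * Real.exp (-c * ρ) := by
    intro t _
    have p1 : 0 ≤ C * Real.exp (-c * ((max r₂ (t / 16) : ℕ) : ℝ)) := by positivity
    have p2 : 0 ≤ C * Real.exp (-c * ρ) := by positivity
    rcases le_total (t / 16) ρ with h | h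
    · rw [min_eq_left h]
      linarith
    · rw [min_eq_right h]
      have h3 : (ρ : ℝ) ≤ ((max r₂ ρ : ℕ) : ℝ) := by exact_mod_cast le_max_right r₂ ρ
      have h4 : C * Real.exp (-c * ((max r₂ ρ : ℕ) : ℝ)) ≤ C * Real.exp (-c * ρ) := by
        refine mul_le_mul_of_nonneg_left (Real.exp_le_exp.mpr ?_) hC
        nlinarith
      linarith
  refine (Finset.sum_le_sum hterm).trans ?_
  rw [Finset.sum_add_distrib, Finset.sum_const, Finset.card_range, nsmul_eq_mul]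
  linarith [h2 L]

/-- NUM4. everything at scale `2^i` is negligible against `2^m`, and `2^i`, `2^(m-h)` are large -/
theorem num_far (d : ℕ) (C c ε : ℝ) (hC : 0 ≤ C) (hc : 0 < c) (hε : 0 < ε) (B U h : ℕ) :
    ∃ M₀ : ℕ, ∀ m ≥ M₀, ∀ i : ℕ, (2 : ℝ) ^ m ≤ 2 ^ (d * i) * Real.log (2 * d) →
      C * U * 2 ^ (m - h) * Real.exp (-c * 2 ^ i) ≤ ε ∧ B ≤ 2 ^ i ∧ B ≤ 2 ^ (m - h) := by
  obtain ⟨Λ, hΛ⟩ : ∃ Λ, Λ = |Real.log (2 * d)| + 1 := ⟨_, rfl⟩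
  have hΛ0 : 0 < Λ := by rw [hΛ]; positivity
  have hΛl : Real.log (2 * d) ≤ Λ := by
    rw [hΛ]; linarith [le_abs_self (Real.log (2 * d))]
  have hlim : Tendsto (fun x : ℝ => C * U * Λ * (x ^ d * Real.exp (-c * x))) atTop (𝓝 0) := by
    have h1 := tendsto_rpow_mul_exp_neg_mul_atTop_nhds_zero (d : ℝ) c hc
    have h2 := h1.const_mul (C * U * Λ)
    simpa [Real.rpow_natCast] using h2
  obtain ⟨X, hX⟩ := ((hlim.eventually (gt_mem_nhds hε)).and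
    (eventually_ge_atTop (B : ℝ))).exists_forall_of_atTop
  obtain ⟨Y, hY⟩ : ∃ Y, Y = max X 1 := ⟨_, rfl⟩
  have hY1 : 1 ≤ Y := by rw [hY]; exact le_max_right _ _
  have hYX : X ≤ Y := by rw [hY]; exact le_max_left _ _
  obtain ⟨M₁, hM₁⟩ := pow_unbounded_of_one_lt (Y ^ d * Λ) (one_lt_two : (1 : ℝ) < 2)
  refine ⟨max M₁ (h + B), fun m hm i hi => ?_⟩
  have hmM : M₁ ≤ m := (le_max_left _ _).trans hm
  have hmB : h + B ≤ m := (le_max_right _ _).trans hm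
  have hi2 : (2 : ℝ) ^ m ≤ ((2 : ℝ) ^ i) ^ d * Λ := by
    rw [← pow_mul, mul_comm i d]
    exact hi.trans (mul_le_mul_of_nonneg_left hΛl (by positivity))
  have hXi : X ≤ (2 : ℝ) ^ i := by
    by_contra hcon
    push Not at hcon
    have h1 : (2 : ℝ) ^ i ≤ Y := by linarith
    have h2 : ((2 : ℝ) ^ i) ^ d ≤ Y ^ d := pow_le_pow_left₀ (by positivity) h1 d
    have h3 : ((2 : ℝ) ^ i) ^ d * Λ ≤ Y ^ d * Λ := mul_le_mul_of_nonneg_right h2 hΛ0.le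
    have h4 : (2 : ℝ) ^ M₁ ≤ 2 ^ m := pow_le_pow_right₀ (by norm_num) hmM
    linarith
  obtain ⟨k1, k2⟩ := hX _ hXi
  refine ⟨?_, ?_, ?_⟩
  · have h1 : (2 : ℝ) ^ (m - h) ≤ ((2 : ℝ) ^ i) ^ d * Λ :=
      (pow_le_pow_right₀ (by norm_num) (Nat.sub_le m h)).trans hi2
    calc C * U * 2 ^ (m - h) * Real.exp (-c * 2 ^ i)
        ≤ C * U * (((2 : ℝ) ^ i) ^ d * Λ) * Real.exp (-c * 2 ^ i) := by
          refine mul_le_mul_of_nonneg_right (mul_le_mul_of_nonneg_left h1 (by positivity))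
            (Real.exp_pos _).le
      _ = C * U * Λ * (((2 : ℝ) ^ i) ^ d * Real.exp (-c * 2 ^ i)) := by ring
      _ ≤ ε := k1.le
  · exact_mod_cast k2
  · have h1 : B ≤ m - h := by omega
    exact h1.trans (Nat.lt_two_pow_self.le)

end Pool.Agent.H83.HG
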