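import Pool.Agent.H30.HG.Nodes
import Pool.Agent.H83.HG.Num

/-!
# HG: the field `cnt`, abstract form
-/

open MeasureTheory Filter Topology
open Pool.Agent.H17.IIC Pool.Agent.H41.QC Pool.Agent.H47.GM Pool.Agent.H17.QA
open Pool.Agent.H94.HG Pool.Agent.H94.BM Pool.Agent.H47.HJ Pool.Agent.H30.HG

namespace Pool.Agent.H83.HG

/-- the sum of the weights of the nodes over `2 k` cells -/
theorem cnt_core (n : ℕ) : ∃ C : ℝ, 1 ≤ C ∧ ∀ (q0 i : ℕ), q0 + n + 10 ≤ i →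
    ∀ (𝒞 : Finset (X n)) (anc : X n → Finset (X n)) (k : ℕ), 1 ≤ k → 𝒞.card ≤ 2 * k →
    (∀ c ∈ 𝒞, ∀ x ∈ anc c, x.2 ∈ nodes q0 (TT n q0 i) 0) →
    (∀ c ∈ 𝒞, ∀ x ∈ anc c, ∀ y ∈ anc c, x.2.1 = y.2.1 → x = y) →
    ∀ B : Finset (X n), (∀ x ∈ B, ∃ c ∈ 𝒞, x ∈ anc c) →
    ∑ ν ∈ B, (rho n q0 ν.2.1 : ℝ) ≤ C * 2 ^ i * (k : ℝ) ^ gam (n + 2) := by
  classical
  obtain ⟨C, hC, h⟩ := num_cnt (n + 1) (2 * (n + 2)) (by omega)
  refine ⟨max C 1, le_max_right _ _, ?_⟩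
  intro q0 i hi 𝒞 anc k hk hcard hnod hun B hB
  obtain ⟨T, hT⟩ : ∃ T, T = i - (q0 + n + 10) := ⟨_, rfl⟩
  have hTT : TT n q0 i = (n + 1) * T := by rw [hT]; rfl
  have hlev : ∀ x ∈ B, x.2.1 ∈ Finset.range ((n + 1) * T + 1) := by
    intro x hx
    obtain ⟨c, hc, hxc⟩ := hB x hx
    have h1 := nodes_le (hnod c hc x hxc)
    rw [Finset.mem_range]
    omega
  have h1 : ∀ l ≤ (n + 1) * T, (B.filter fun x => x.2.1 = l).card ≤ 2 * k := by
    intro l _
    refine le_trans ?_ hcard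
    have hex : ∀ x ∈ B.filter fun x => x.2.1 = l, ∃ c ∈ 𝒞, x ∈ anc c :=
      fun x hx => hB x (Finset.mem_filter.1 hx).1
    choose! f hf1 hf2 using hex
    refine Finset.card_le_card_of_injOn f (fun x hx => hf1 x hx) ?_
    intro x hx y hy hxy
    have e1 := hf2 x hx
    have e2 := hf2 y hy
    rw [hxy] at e1
    have e3 := (Finset.mem_filter.1 hx).2
    have e4 := (Finset.mem_filter.1 hy).2
    exact hun _ (hf1 y hy) x e1 y e2 (e3.trans e4.symm)
  have h2 : ∀ l ≤ (n + 1) * T, (B.filter fun x => x.2.1 = l).card ≤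
      2 * (n + 2) * 2 ^ ((n + 1) * T - l) := by
    intro l _
    have hsub : (B.filter fun x => x.2.1 = l) ⊆
        (Finset.univ : Finset (Face n)) ×ˢ ((nodes q0 (TT n q0 i) 0).filter fun x => x.1 = l) := by
      intro x hx
      obtain ⟨hx1, hx2⟩ := Finset.mem_filter.1 hx
      obtain ⟨c, hc, hxc⟩ := hB x hx1
      exact Finset.mem_product.2 ⟨Finset.mem_univ _, Finset.mem_filter.2 ⟨hnod c hc x hxc, hx2⟩⟩
    refine (Finset.card_le_card hsub).trans ?_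
    rw [Finset.card_product]
    have e1 := nodes_card q0 (TT n q0 i) l (0 : V (n + 2))
    rw [hTT] at e1 ⊢
    have e2 : (Finset.univ : Finset (Face n)).card = 2 * (n + 2) := by
      rw [Finset.card_univ]
      show Fintype.card (Fin (n + 2) × Bool) = _
      rw [Fintype.card_prod, Fintype.card_fin, Fintype.card_bool]
      ring
    rw [e2]
    exact Nat.mul_le_mul_left _ e1
  have h3 := h q0 T k (fun l => (B.filter fun x => x.2.1 = l).card) hk h1 h2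
  have h4 : ∑ ν ∈ B, (rho n q0 ν.2.1 : ℝ) =
      ∑ l ∈ Finset.range ((n + 1) * T + 1), ∑ ν ∈ B.filter (fun x => x.2.1 = l), (rho n q0 ν.2.1 : ℝ) :=
    (Finset.sum_fiberwise_of_maps_to hlev _).symm
  have h5 : ∀ l ∈ Finset.range ((n + 1) * T + 1), ∑ ν ∈ B.filter (fun x => x.2.1 = l), (rho n q0 ν.2.1 : ℝ) ≤
      (2 : ℝ) ^ (q0 + l / (n + 1)) * ((B.filter fun x => x.2.1 = l).card : ℕ) := by
    intro l _
    have e1 : ∑ ν ∈ B.filter (fun x => x.2.1 = l), (rho n q0 ν.2.1 : ℝ) =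
        ((B.filter fun x => x.2.1 = l).card : ℕ) * (rho n q0 l : ℝ) := by
      rw [Finset.sum_congr rfl fun x hx => by rw [(Finset.mem_filter.1 hx).2], Finset.sum_const, nsmul_eq_mul]
    rw [e1, mul_comm]
    refine mul_le_mul_of_nonneg_right ?_ (by positivity)
    unfold rho
    push_cast
    refine pow_le_pow_right₀ (by norm_num) ?_
    have := Nat.div_le_div_right (c := n + 1) (show l - 1 ≤ l by omega)
    omega
  have hgam : gam (n + 2) = 1 - 1 / (2 * ((n + 1 : ℕ) : ℝ)) := by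
    unfold gam
    push_cast
    ring_nf
  have hkg : 0 ≤ (k : ℝ) ^ gam (n + 2) := Real.rpow_nonneg (by positivity) _
  rw [h4]
  refine (Finset.sum_le_sum h5).trans (h3.trans ?_)
  rw [hgam] at hkg ⊢
  refine mul_le_mul_of_nonneg_right ?_ hkg
  have e1 : (2 : ℝ) ^ (q0 + T) ≤ 2 ^ i := pow_le_pow_right₀ (by norm_num) (by omega)
  have e2 : C ≤ max C 1 := le_max_left _ _
  have e3 : 0 ≤ (2 : ℝ) ^ (q0 + T) := by positivity
  exact mul_le_mul e2 e1 e3 (by linarith)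

end Pool.Agent.H83.HG
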